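import Pool.Agent.H62.EF.Defs

/-! EF1 (helper91): the Sperner product is a cocycle. -/

namespace Pool.Agent.H91.EF
open Finset Pool.Agent.H62.EF

/-- One block: alternating sum of the signs of the faces of `n + 2` labels. -/
theorem sg_faces {n : ℕ} (b : Fin (n + 2) → Fin (n + 1)) :
    ∑ j : Fin (n + 2), (-1 : ℤ) ^ (j : ℕ) * sg (fun i => b (j.succAbove i)) = 0 := by
  classical
  set M : Matrix (Fin (n + 2)) (Fin (n + 2)) ℤ :=
    Matrix.of fun i j => Fin.cases (motive := fun _ => ℤ) 1 (fun k => if b i = k then 1 else 0) j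
    with hM
  have hdet : M.det = 0 := by
    have hvec : M.mulVec (Fin.cases (motive := fun _ => ℤ) 1 (fun _ => -1)) = 0 := by
      funext i
      rw [Matrix.mulVec, dotProduct, Fin.sum_univ_succ]
      simp [hM]
    exact Matrix.exists_mulVec_eq_zero_iff.1
      ⟨Fin.cases (motive := fun _ => ℤ) 1 (fun _ => -1), fun h => by
        simpa using congrFun h 0, hvec⟩
  rw [Matrix.det_succ_column_zero] at hdet
  rw [← hdet]
  refine Finset.sum_congr rfl fun i _ => ?_
  have h1 : M i 0 = 1 := by simp [hM]
  rw [h1, mul_one]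
  congr 1

/-- The cochain of one block is a cocycle. -/
theorem block_cocycle {n : ℕ} (b : ℕ → Fin (n + 1)) :
    ∑ j ∈ range (n + 2), (-1 : ℤ) ^ j * sg (fun i : Fin (n + 1) => b (del j (i : ℕ))) = 0 := by
  rw [Finset.sum_range (fun j => (-1 : ℤ) ^ j * sg (fun i : Fin (n + 1) => b (del j (i : ℕ))))]
  rw [← sg_faces (n := n) (fun i => b (i : ℕ))]
  refine Finset.sum_congr rfl fun j _ => ?_
  congr 2
  funext i
  congr 1
  unfold del Fin.succAbove
  by_cases h : (i : ℕ) < (j : ℕ)
  · rw [if_pos h, if_pos (by simpa [Fin.lt_def] using h)]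
    simp
  · rw [if_neg h, if_neg (by simpa [Fin.lt_def] using h)]
    simp

/-- Cup product of cocycles. -/
theorem cup {X : Type*} (a b : ℕ) (A B : (ℕ → X) → ℤ)
    (hdep : ∀ y y' : ℕ → X, (∀ k ≤ a, y k = y' k) → A y = A y')
    (hA : ∀ y : ℕ → X, ∑ j ∈ range (a + 2), (-1 : ℤ) ^ j * A (fun i => y (del j i)) = 0)
    (hB : ∀ y : ℕ → X, ∑ j ∈ range (b + 2), (-1 : ℤ) ^ j * B (fun i => y (del j i)) = 0)
    (y : ℕ → X) :
    ∑ j ∈ range (a + b + 2), (-1 : ℤ) ^ j *
      (A (fun i => y (del j i)) * B (fun i => y (del j (i + a)))) = 0 := by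
  have hsplit : a + b + 2 = (a + 1) + (b + 1) := by omega
  rw [hsplit, Finset.sum_range_add]
  have h1 : ∑ j ∈ range (a + 1), (-1 : ℤ) ^ j *
      (A (fun i => y (del j i)) * B (fun i => y (del j (i + a)))) =
      (∑ j ∈ range (a + 1), (-1 : ℤ) ^ j * A (fun i => y (del j i))) *
        B (fun i => y (i + 1 + a)) := by
    rw [Finset.sum_mul]
    refine Finset.sum_congr rfl fun j hj => ?_
    have hj' : j ≤ a := by
      have := Finset.mem_range.1 hj
      omega
    have : (fun i => y (del j (i + a))) = fun i => y (i + 1 + a) := by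
      funext i
      unfold del
      rw [if_neg (by omega)]
      congr 1
      omega
    rw [this]
    ring
  have h2 : ∑ l ∈ range (b + 1), (-1 : ℤ) ^ (a + 1 + l) *
      (A (fun i => y (del (a + 1 + l) i)) * B (fun i => y (del (a + 1 + l) (i + a)))) =
      (-1) ^ a * A y * ∑ l ∈ range (b + 1), (-1 : ℤ) ^ (l + 1) *
        B (fun i => (fun i => y (i + a)) (del (l + 1) i)) := by
    rw [Finset.mul_sum]
    refine Finset.sum_congr rfl fun l _ => ?_
    have e1 : A (fun i => y (del (a + 1 + l) i)) = A y := by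
      apply hdep
      intro k hk
      simp only [del]
      rw [if_pos (by omega)]
    have e2 : (fun i => y (del (a + 1 + l) (i + a))) =
        fun i => (fun i => y (i + a)) (del (l + 1) i) := by
      funext i
      simp only [del]
      by_cases h : i < l + 1
      · rw [if_pos (by omega), if_pos h]
      · rw [if_neg (by omega), if_neg h]
        congr 1
        omega
    rw [e1, e2]
    ring
  rw [h1, h2]
  have hA' := hA y
  rw [Finset.sum_range_succ] at hA'
  have e3 : A (fun i => y (del (a + 1) i)) = A y := by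
    apply hdep
    intro k hk
    simp only [del]
    rw [if_pos (by omega)]
  rw [e3] at hA'
  have hB' := hB (fun i => y (i + a))
  rw [Finset.sum_range_succ'] at hB'
  have e4 : (fun i => (fun i => y (i + a)) (del 0 i)) = fun i => y (i + 1 + a) := by
    funext i
    simp [del]
  rw [e4] at hB'
  simp only [pow_zero, one_mul] at hB'
  have e5 : ∑ j ∈ range (a + 1), (-1 : ℤ) ^ j * A (fun i => y (del j i)) = (-1) ^ a * A y := by
    have : (-1 : ℤ) ^ (a + 1) = - (-1) ^ a := by ring
    rw [this] at hA'
    linarith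
  rw [e5, eq_neg_of_add_eq_zero_left hB']
  ring

/-- EF1. The Sperner product is a cocycle. -/
theorem EF1 {n d : ℕ} {X : Type*} (lam : X → Fin d → Fin (n + 1)) (y : ℕ → X) :
    ∑ j ∈ range (d * n + 2), (-1 : ℤ) ^ j * S lam (fun i => y (del j i)) = 0 := by
  induction d generalizing y with
  | zero =>
    simp [S, Finset.sum_range_succ]
  | succ d ih =>
    have hS : ∀ z : ℕ → X, S lam z =
        S (fun x c => lam x (Fin.castSucc c)) z *
          (fun z' : ℕ → X => sg (fun j : Fin (n + 1) => lam (z' (j : ℕ)) (Fin.last d)))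
            (fun i => z (i + d * n)) := by
      intro z
      unfold S
      rw [Fin.prod_univ_castSucc]
      congr 1
      simp only [Fin.val_last]
      congr 1
      funext j
      congr 2
      rw [mul_comm, add_comm]
    have hr : (d + 1) * n + 2 = d * n + n + 2 := by ring
    rw [hr]
    have := cup (d * n) n (S (fun x c => lam x (Fin.castSucc c)))
      (fun z' : ℕ → X => sg (fun j : Fin (n + 1) => lam (z' (j : ℕ)) (Fin.last d)))
      (by
        intro z z' hz
        unfold S
        refine Finset.prod_congr rfl fun c _ => ?_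
        congr 1
        funext j
        rw [hz]
        have hc : (c : ℕ) + 1 ≤ d := c.isLt
        have hj : (j : ℕ) ≤ n := Nat.lt_succ_iff.1 j.isLt
        calc n * (c : ℕ) + (j : ℕ) ≤ n * (c : ℕ) + n := by omega
          _ = ((c : ℕ) + 1) * n := by ring
          _ ≤ d * n := Nat.mul_le_mul_right n hc)
      (fun z => ih _ z)
      (fun z => block_cocycle (fun k => lam (z k) (Fin.last d))) y
    rw [← this]
    refine Finset.sum_congr rfl fun j _ => ?_
    rw [hS]

end Pool.Agent.H91.EF
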